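import Pool.Agent.Work.MP_6bf1e5_an.Bl.Poly

/-! The data of a tube certificate and the polynomials whose signs are checked. -/

namespace Pool.Agent.Work.MP_6bf1e5_an.Bl

open SP

structure Cert where
  d : ℕ
  Yd : List (List ℤ)
  Nd : List (List (List ℤ))
  Bd : List (List ℤ)
  rd : List ℤ
  ad : List ℤ
  bd : List ℤ
  rho : ℤ
  drho : ℤ
  dmu : ℤ
  G : ℤ
  G0 : ℤ

namespace Cert

variable (C : Cert)

def Y (i : ℕ) : SP := ⟨40, C.Yd.getD i []⟩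
def B (i : ℕ) : SP := ⟨44, C.Bd.getD i []⟩
def M (i l : ℕ) : SP :=
  ⟨30, (if i = l + 1 then 1073741824 else 0) :: (C.Nd.getD i []).getD l []⟩
def r (l : ℕ) : ℤ := C.rd.getD l 0
def al (l : ℕ) : ℤ := C.ad.getD l 0
def be (l : ℕ) : ℤ := C.bd.getD l 0
def V (i : ℕ) : SP := sum (fun l => mul (k (C.r l)) (C.M i l).abs) C.d
def W (i : ℕ) : SP := add (C.Y i).abs (C.V i)
def two : SP := ⟨0, [2]⟩

def dY (j : ℕ) : SP :=
  sub (sub (mul (k C.rho) (mul (C.Y j) (C.Y j))) (mul (C.Y (j+1)) (C.Y (j+2)))) (C.Y (j+1)).der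

def D (j l : ℕ) : SP :=
  sub (sub (sub (mul (mul two (mul (k C.rho) (C.Y j))) (C.M j l)) (mul (C.Y (j+2)) (C.M (j+1) l)))
    (mul (C.Y (j+1)) (C.M (j+2) l))) (C.M (j+1) l).der

def src (j : ℕ) : SP :=
  add (add (add (C.dY j).abs (sum (fun l => mul (k (C.r l)) (C.D j l).abs) C.d))
    (add (mul (k C.rho) (mul (C.V j) (C.V j))) (mul (C.V (j+1)) (C.V (j+2)))))
    (add (mul (k C.drho) (mul (C.W j) (C.W j))) (mul (k C.dmu) (C.W (j+1))))

def rowT (j : ℕ) : SP :=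
  sub (C.B (j+1)).der (add (add (C.src j) (mul (add (k C.rho) (k C.drho))
    (add (mul two (mul (C.W j) (C.B j))) (mul (C.B j) (C.B j))))) (mul (C.W (j+1)) (C.B (j+2))))

def ds : SP := sum (fun l => mul (k (C.r l)) (k (C.al l)).abs) C.d
def db : SP := sum (fun l => mul (k (C.r l)) (k (C.be l)).abs) C.d

def J (j l : ℕ) : SP :=
  sub (add (C.M (j+2) l).c1 (mul (C.Y (j+2)).quo.c1 (k (C.al l)))) (mul (C.Y (j+1)).c0 (k (C.be l)))

def endT (j : ℕ) : SP :=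
  sub (mul (k C.G0) (k (C.r j))) (add (add (add (add
    (sub (C.Y (j+2)).c1 (mul (k C.G) (C.Y (j+1)).c0)).abs
    (sum (fun l => mul (k (C.r l)) (C.J j l).abs) C.d))
    (mul (mul C.ds C.ds) (C.Y (j+2)).quo.quo.abs))
    (mul C.ds (sum (fun l => mul (k (C.r l)) (C.M (j+2) l).quo.abs) C.d))) (C.B (j+2)))

end Cert

end Pool.Agent.Work.MP_6bf1e5_an.Bl
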