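import Pool.Agent.Work.MP_6bf1e5_an.Bl.Data

/-! Kernel checks of the certificate, first part. -/

namespace Pool.Agent.Work.MP_6bf1e5_an.Bl

open SP

theorem chk_row1 : ∀ j < 8, 0 < loL (cc.rowT j).c := by decide +kernel

theorem chk_B : ∀ j < 14, 0 ≤ loL (cc.B j).c := by decide +kernel

theorem chk_eta : 0 ≤ loL (sub (cc.B 14) (k 4096)).c ∧ 0 ≤ loL (sub (k 8192) (cc.B 14)).c := by
  decide +kernel

theorem chk_ds : 0 ≤ loL (sub (k 4194304) cc.ds).c := by decide +kernel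

theorem chk_db : 0 ≤ loL (sub (sub (k cc.G) cc.db) (k cc.G0)).c := by decide +kernel

theorem chk_beh : 0 ≤ loL (sub (mul (k cc.G0) (k 346161152)) (add (cc.W 1) (cc.B 1))).c := by
  decide +kernel

theorem chk_low : 0 ≤ loL (sub (sub (cc.Y 9).c0 (k (cc.r 8))) (k 1073741824)).c := by
  decide +kernel

end Pool.Agent.Work.MP_6bf1e5_an.Bl
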