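import Pool.Agent.Work.MP_6bf1e5_an.Bl.Data

/-! Kernel checks of the certificate, second part. -/

namespace Pool.Agent.Work.MP_6bf1e5_an.Bl

open SP

theorem chk_row2 : ∀ j < 6, 0 < loL (cc.rowT (j + 8)).c := by decide +kernel

theorem chk_end : ∀ j < 13, 0 ≤ loL (cc.endT j).c := by decide +kernel

end Pool.Agent.Work.MP_6bf1e5_an.Bl
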