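import Pool.Agent.Work.MP_6bf1e5_an.Dy.Limit

/-! Global bounded solutions of the dyadic model by Galerkin approximation. -/

namespace Pool.Agent.Work.MP_6bf1e5_an.Bl

open Set Filter Topology Dy

noncomputable section

def Fe (ν L κ : ℝ) (X : ℕ → ℝ) (n : ℕ) : ℝ :=
  -ν * L^n * X n + κ^(n-1) * X (n-1)^2 - κ^n * X n * X (n+1)

theorem Fe_sum (ν L κ : ℝ) (X : ℕ → ℝ) (h0 : X 0 = 0) (k : ℕ) :
    ∑ n ∈ Finset.Icc 1 k, 2 * X n * Fe ν L κ X n
      = -2 * (κ^k * X k^2 * X (k+1) + ν * ∑ n ∈ Finset.Icc 1 k, L^n * X n^2) := by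
  induction k with
  | zero => simp [h0]
  | succ k ih =>
    rw [Finset.sum_Icc_succ_top (by omega), Finset.sum_Icc_succ_top (by omega), ih]
    simp only [Fe, Nat.add_sub_cancel]
    ring

theorem exists_gal {ν L : ℝ} (κ : ℝ) (hν : 0 ≤ ν) (hL : 0 ≤ L) (x : ℕ → ℝ) {E : ℝ}
    (hE : ∀ N, ∑ n ∈ Finset.Icc 1 N, x n^2 ≤ E) (N : ℕ) :
    ∃ X : ℝ → ℕ → ℝ, (∀ n, 1 ≤ n → n ≤ N → X 0 n = x n) ∧ (∀ t, X t 0 = 0) ∧
      ∀ t ∈ Icc (0:ℝ) N, (∀ n, |X t n| ≤ E + 2) ∧ ∀ n, 1 ≤ n → n ≤ N →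
        HasDerivWithinAt (fun s => X s n) (Fe ν L κ (X t) n) (Ici 0) t := by
  have hE0 : 0 ≤ E := by simpa using hE 0
  obtain ⟨α, c, h0, hα⟩ := exists_cut (V := Finset.Icc 1 N → ℝ)
    (fun v i => Fe ν L κ (ext0 N v) i)
    (contDiff_pi.2 fun i => by
      unfold Fe
      exact ((contDiff_const.mul (contDiff_ext0 N _)).add
        (contDiff_const.mul ((contDiff_ext0 N _).pow 2))).sub
        ((contDiff_const.mul (contDiff_ext0 N _)).mul (contDiff_ext0 N _)))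
    (fun _ => 0) continuousOn_const (R := E + 2) (by linarith)
    (fun i => x i) (T := N) (Nat.cast_nonneg N)
  set X : ℝ → ℕ → ℝ := fun t => ext0 N (α t) with hX
  have hz : ∀ t, X t 0 = 0 := fun t => by simp [hX, ext0]
  have hN : ∀ t, X t (N+1) = 0 := fun t => by simp [hX, ext0]
  have hi : ∀ n, 1 ≤ n → n ≤ N → X 0 n = x n := fun n h1 h2 => by simp [hX, ext0, h0, h1, h2]
  have hd : ∀ t ∈ Icc (0:ℝ) N, ∀ n ∈ Finset.Icc 1 N,
      HasDerivWithinAt (fun s => X s n) (c t * Fe ν L κ (X t) n) (Ici 0) t := by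
    intro t ht n hn
    have := hasDerivWithinAt_pi.1 (hα t ht).1 ⟨n, hn⟩
    have h3 : (fun s => X s n) = fun s => α s ⟨n, hn⟩ := by
      funext s; simp [hX, ext0, hn, -Finset.mem_Icc]
    rw [h3]
    exact this.congr_deriv (by simp [hX])
  have hb : ∀ t, ∑ n ∈ Finset.Icc 1 N, X t n^2 ≤ E + 2 → ∀ n, |X t n| ≤ E + 2 := by
    intro t h n
    by_cases hn : n ∈ Finset.Icc 1 N
    · have := Finset.single_le_sum (f := fun n => X t n^2) (fun n _ => by positivity) hn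
      exact abs_le_of_sq_le_sq (by nlinarith) (by linarith)
    · have : X t n = 0 := by simp only [hX, ext0, hn, dif_neg, not_false_eq_true]
      rw [this, abs_zero]
      linarith
  have hc : ∀ t ∈ Icc (0:ℝ) N, (∀ n, |X t n| ≤ E + 2) → c t = 1 := fun t ht h =>
    (hα t ht).2 ((pi_norm_le_iff_of_nonneg (by linarith)).2 fun i => by
      simpa [hX, ext0] using h i)
  have hN0 : (0:ℝ) < N + 1 := by positivity
  have hle : ∀ t ∈ Icc (0:ℝ) N, t / (N + 1) ≤ 1 := fun t ht => by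
    rw [div_le_one hN0]
    linarith [ht.2]
  have key := inv_finite ({()} : Finset Unit)
    (fun _ t => E + t / (N + 1) - ∑ n ∈ Finset.Icc 1 N, X t n^2)
    (fun _ t => 1 / (N + 1) - ∑ n ∈ Finset.Icc 1 N, 2 * X t n * (c t * Fe ν L κ (X t) n))
    (a := 0) (b := N)
    (fun _ _ t ht => (((hasDerivAt_id t).div_const _).const_add E).hasDerivWithinAt.sub
      (HasDerivWithinAt.fun_sum fun n hn => by simpa using (hd t ht n hn).fun_pow 2))
    (fun _ _ => by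
      rw [Finset.sum_congr rfl fun n hn => by
        rw [hi n (Finset.mem_Icc.1 hn).1 (Finset.mem_Icc.1 hn).2]]
      simpa using hE N)
    (fun t ht _ _ _ h => by
      rw [hc t ht (hb t (by linarith [hle t ht]))]
      simp only [one_mul]
      rw [Fe_sum ν L κ _ (hz t), hN]
      have : 0 ≤ ν * ∑ n ∈ Finset.Icc 1 N, L^n * X t n^2 :=
        mul_nonneg hν (Finset.sum_nonneg fun n _ => by positivity)
      have : 0 < 1 / ((N:ℝ) + 1) := by positivity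
      linarith)
  refine ⟨X, hi, hz, fun t ht => ?_⟩
  have h1 := hb t (by linarith [key t ht () (by simp), hle t ht])
  refine ⟨h1, fun n h2 h3 => ?_⟩
  simpa [hc t ht h1] using hd t ht n (Finset.mem_Icc.2 ⟨h2, h3⟩)

theorem Fe_bound {ν L κ B : ℝ} {X : ℕ → ℝ} (h : ∀ n, |X n| ≤ B) (n : ℕ) :
    |Fe ν L κ X n| ≤ |ν * L^n| * B + |κ^(n-1)| * (B * B) + |κ^n| * (B * B) := by
  have h1 := abs_le.1 (abs_mul_le (le_refl |ν * L^n|) (h n))
  have h2 := abs_le.1 (abs_mul_le (le_refl |κ^(n-1)|) (abs_mul_le (h (n-1)) (h (n-1))))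
  have h3 := abs_le.1 (abs_mul_le (le_refl |κ^n|) (abs_mul_le (h n) (h (n+1))))
  unfold Fe
  rw [abs_le]
  constructor <;> linarith [h1.1, h1.2, h2.1, h2.2, h3.1, h3.2]

theorem Fe_diff {ν L κ B d : ℝ} {X Z : ℕ → ℝ} (h : ∀ n, |X n| ≤ B) (h' : ∀ n, |Z n| ≤ B) (n : ℕ)
    (hd : ∀ j ≤ n + 1, |Z j - X j| ≤ d) :
    |Fe ν L κ Z n - Fe ν L κ X n| ≤ (|ν * L^n| + 2 * B * (|κ^(n-1)| + |κ^n|)) * d := by
  have h1 := abs_le.1 (abs_mul_le (le_refl |ν * L^n|) (hd n (by omega)))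
  have h2 := abs_le.1 (abs_mul_le (le_refl |κ^(n-1)|) (abs_mul_le (h (n-1)) (hd (n-1) (by omega))))
  have h3 := abs_le.1 (abs_mul_le (le_refl |κ^(n-1)|) (abs_mul_le (h' (n-1)) (hd (n-1) (by omega))))
  have h4 := abs_le.1 (abs_mul_le (le_refl |κ^n|) (abs_mul_le (h n) (hd (n+1) le_rfl)))
  have h5 := abs_le.1 (abs_mul_le (le_refl |κ^n|) (abs_mul_le (h' (n+1)) (hd n (by omega))))
  unfold Fe
  rw [abs_le]
  constructor <;> linarith [h1.1, h1.2, h2.1, h2.2, h3.1, h3.2, h4.1, h4.2, h5.1, h5.2]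

theorem exists_weak {ν L : ℝ} (κ : ℝ) (hν : 0 ≤ ν) (hL : 0 ≤ L) (x : ℕ → ℝ) (hx0 : x 0 = 0) {E : ℝ}
    (hE : ∀ N, ∑ n ∈ Finset.Icc 1 N, x n^2 ≤ E) :
    ∃ X : ℝ → ℕ → ℝ, X 0 = x ∧ ∀ t, 0 ≤ t → X t 0 = 0 ∧ (∀ n, |X t n| ≤ E + 2) ∧
      ∀ n, 1 ≤ n → HasDerivWithinAt (fun s => X s n) (Fe ν L κ (X t) n) (Ici 0) t := by
  choose G hi hz hG using exists_gal κ hν hL x hE
  set B := E + 2
  have hU : ∀ {p : ℕ → Prop}, (∀ᶠ N in atTop, p N) → ∀ᶠ N in (hyperfilter ℕ : Filter ℕ), p N :=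
    fun h => Nat.hyperfilter_le_atTop h
  have hev : ∀ t : ℝ, 0 ≤ t → ∀ᶠ N : ℕ in atTop, t ∈ Icc (0:ℝ) N := fun t ht =>
    (tendsto_natCast_atTop_atTop.eventually (eventually_ge_atTop t)).mono fun N h => ⟨ht, h⟩
  have hlim : ∀ t : ℝ, 0 ≤ t → ∀ n, ∃ a,
      Tendsto (fun N => G N t n) (hyperfilter ℕ : Filter ℕ) (𝓝 a) := by
    intro t ht n
    obtain ⟨a, -, ha⟩ := (isCompact_Icc (a := -B) (b := B)).ultrafilter_le_nhds
      ((hyperfilter ℕ).map fun N => G N t n) (by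
        rw [Ultrafilter.coe_map, le_principal_iff, mem_map]
        exact hU ((hev t ht).mono fun N h => abs_le.1 ((hG N t h).1 n)))
    exact ⟨a, ha⟩
  choose! Y hY using hlim
  have hz' : ∀ t, 0 ≤ t → Y t 0 = 0 := fun t ht =>
    tendsto_nhds_unique (hY t ht 0) (tendsto_const_nhds.congr fun N => (hz N t).symm)
  have hB0 : 0 ≤ B := (abs_nonneg _).trans ((hG 0 0 ⟨le_rfl, Nat.cast_nonneg _⟩).1 0)
  refine ⟨Y, funext fun n => ?_, fun t ht => ⟨hz' t ht, fun n => ?_, fun n hn => ?_⟩⟩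
  · rcases Nat.eq_zero_or_pos n with rfl | hn
    · rw [hz' 0 le_rfl, hx0]
    · exact tendsto_nhds_unique (hY 0 le_rfl n) (tendsto_const_nhds.congr'
        (hU ((eventually_ge_atTop n).mono fun N h => (hi N n hn h).symm)))
  · exact le_of_tendsto (hY t ht n).abs (hU ((hev t ht).mono fun N h => (hG N t h).1 n))
  obtain ⟨K, hK0, hK⟩ : ∃ K, 0 ≤ K ∧ ∀ N, n + 1 ≤ N → ∀ r ∈ Icc (0:ℝ) N, ∀ s ∈ Icc (0:ℝ) N,
      ∀ j ≤ n + 1, |G N r j - G N s j| ≤ K * |r - s| := by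
    refine ⟨∑ j ∈ Finset.range (n+2), (|ν * L^j| * B + |κ^(j-1)| * (B * B) + |κ^j| * (B * B)),
      Finset.sum_nonneg fun j _ => by positivity, fun N h2 r hr s hs j hj => ?_⟩
    rcases Nat.eq_zero_or_pos j with rfl | hj0
    · rw [hz, hz, sub_zero, abs_zero]
      exact mul_nonneg (Finset.sum_nonneg fun j _ => by positivity) (abs_nonneg _)
    refine (convex_Icc (0:ℝ) N).norm_image_sub_le_of_norm_hasDerivWithin_le
      (f := fun s => G N s j) (f' := fun s => Fe ν L κ (G N s) j)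
      (fun u hu => ((hG N u hu).2 j hj0 (by omega)).mono Icc_subset_Ici_self)
      (fun u hu => (Fe_bound (hG N u hu).1 j).trans ?_) hs hr
    exact Finset.single_le_sum
      (f := fun j => |ν * L^j| * B + |κ^(j-1)| * (B * B) + |κ^j| * (B * B))
      (fun j _ => by positivity) (Finset.mem_range.2 (by omega))
  rw [hasDerivWithinAt_iff_isLittleO, Asymptotics.isLittleO_iff]
  intro ε hε
  obtain ⟨A, hA⟩ : ∃ A, A = |ν * L^n| + 2 * B * (|κ^(n-1)| + |κ^n|) := ⟨_, rfl⟩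
  have hA0 : 0 ≤ A := by rw [hA]; positivity
  obtain ⟨δ, hδ0, hδ⟩ : ∃ δ > 0, ∀ r, |r - t| < δ → A * (K * |r - t|) ≤ ε := by
    refine ⟨ε / (A * K + 1), by positivity, fun r hr => ?_⟩
    rw [lt_div_iff₀ (by positivity)] at hr
    nlinarith [abs_nonneg (r - t)]
  have hball : ∀ᶠ s in 𝓝[Ici 0] t, s ∈ Metric.ball t δ :=
    mem_nhdsWithin_of_mem_nhds (Metric.ball_mem_nhds t hδ0)
  filter_upwards [hball, self_mem_nhdsWithin] with s hs hs0
  have hT : Tendsto (fun N => ‖G N s n - G N t n - (s - t) • Fe ν L κ (G N t) n‖)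
      (hyperfilter ℕ : Filter ℕ) (𝓝 ‖Y s n - Y t n - (s - t) • Fe ν L κ (Y t) n‖) := by
    unfold Fe
    exact (((hY s hs0 n).sub (hY t ht n)).sub (Tendsto.const_smul
      ((((hY t ht n).const_mul _).add (((hY t ht _).pow 2).const_mul _)).sub
        (((hY t ht n).const_mul _).mul (hY t ht _))) _)).norm
  refine le_of_tendsto hT (hU ?_)
  filter_upwards [hev t ht, hev s hs0, eventually_ge_atTop (n+1)] with N h1 h2 h3
  have := ((convex_Icc (0:ℝ) N).inter (convex_ball t δ)).norm_image_sub_le_of_norm_hasDerivWithin_le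
    (f := fun r => G N r n - r * Fe ν L κ (G N t) n)
    (f' := fun r => Fe ν L κ (G N r) n - Fe ν L κ (G N t) n) (C := ε)
    (fun u hu => (((hG N u hu.1).2 n hn (by omega)).mono
      (inter_subset_left.trans Icc_subset_Ici_self)).sub
        (hasDerivAt_mul_const _).hasDerivWithinAt)
    (fun u hu => by
      refine le_trans ?_ (hδ u (by simpa [Real.dist_eq] using hu.2))
      rw [hA]
      exact Fe_diff (hG N t h1).1 (hG N u hu.1).1 n (hK N h3 u hu.1 t h1))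
    ⟨h1, Metric.mem_ball_self hδ0⟩ ⟨h2, hs⟩
  have e : G N s n - G N t n - (s - t) • Fe ν L κ (G N t) n
      = G N s n - s * Fe ν L κ (G N t) n - (G N t n - t * Fe ν L κ (G N t) n) := by
    rw [smul_eq_mul]
    ring
  rw [e]
  exact this

end

end Pool.Agent.Work.MP_6bf1e5_an.Bl
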