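import Pool.Agent.Work.MP_6bf1e5_an.Bl.Stage

/-! Iteration of the stages: smoothness before a finite time and blow-up at that time. -/

namespace Pool.Agent.Work.MP_6bf1e5_an.Bl

open SP Set

variable {ρ T : ℝ} {μ : ℕ → ℝ} {U : ℝ → ℕ → ℝ}

theorem Flow.mono (h : Flow ρ μ T U) {t : ℝ} (ht : t ≤ T) : Flow ρ μ t U :=
  ⟨fun s hs => h.zero s ⟨hs.1, hs.2.trans ht⟩, fun s hs => h.pos s ⟨hs.1, hs.2.trans ht⟩, h.mu,
    fun s hs => h.ode s ⟨hs.1, hs.2.trans ht⟩⟩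

theorem Flow.rescale (h : Flow ρ μ T U) {t a b : ℝ} (ht : 0 ≤ t) (ha : 0 < a)
    (hb : t + b / a ≤ T) : Flow ρ (fun m => μ m / a) b (fun s m => U (t + s / a) m / a) := by
  have hm : ∀ s ∈ Icc 0 b, t + s / a ∈ Icc 0 T := fun s hs =>
    ⟨add_nonneg ht (div_nonneg hs.1 ha.le),
      le_trans (by linarith [div_le_div_of_nonneg_right hs.2 ha.le]) hb⟩
  refine ⟨fun s hs => by rw [h.zero _ (hm s hs), zero_div],
    fun s hs m => div_nonneg (h.pos _ (hm s hs) m) ha.le, fun m => div_nonneg (h.mu m) ha.le,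
    fun s hs m => ?_⟩
  have h1 : HasDerivWithinAt (fun s => t + s / a) (1 / a) (Ici 0) s :=
    (((hasDerivAt_id s).div_const a).const_add t).hasDerivWithinAt
  have h2 := ((h.ode _ (hm s hs) m).comp s h1
    (fun r hr => add_nonneg ht (div_nonneg hr ha.le))).div_const a
  refine h2.congr_deriv ?_
  field_simp

theorem Flow.bdd (h : Flow ρ μ T U) (hρ : 0 ≤ ρ) (m : ℕ) : ∃ c, ∀ s ∈ Icc 0 T, U s m ≤ c := by
  induction m with
  | zero => exact ⟨0, fun s hs => (h.zero s hs).le⟩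
  | succ m ih =>
    obtain ⟨c, hc⟩ := ih
    exact ⟨_, h.step hρ hc⟩

/-- Uniform smallness of the high shells on `[0, t]`. -/
def Tail (U : ℝ → ℕ → ℝ) (t : ℝ) : Prop :=
  ∀ ε : ℝ, 0 < ε → ∃ n0, ∀ n, n0 ≤ n → ∀ s ∈ Icc 0 t, U s n ≤ ε

theorem Flow.smooth (h : Flow ρ μ T U) (hρ : 0 ≤ ρ) (hT : 0 ≤ T) {N : ℕ}
    (h0 : ∀ n, N < n → U 0 n = 0) (ht : Tail U T) {q : ℝ} (hq : 1 ≤ q) :
    ∃ C, ∀ s ∈ Icc 0 T, ∀ n, q^n * U s n ≤ C := by
  obtain ⟨A, hA0, hA⟩ : ∃ A, 0 < A ∧ ρ * T ≤ A := ⟨ρ * T + 1, by positivity, by linarith⟩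
  obtain ⟨n0, hn0⟩ := ht (1 / (A * q)) (by positivity)
  have h1 : ∀ j, ∀ s ∈ Icc 0 T, U s (max n0 N + j) ≤ 1 / (A * q^(j+1)) := by
    intro j
    induction j with
    | zero => simpa using hn0 _ (le_max_left _ _)
    | succ j ih =>
      intro s hs
      have a1 := h.step hρ ih s hs
      rw [h0 _ (by omega), zero_add] at a1
      refine a1.trans ((mul_le_mul_of_nonneg_right hA (by positivity)).trans ?_)
      have a2 : q^(j+1+1) ≤ q^(j+1) * q^(j+1) := by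
        rw [← pow_add]
        exact pow_le_pow_right₀ hq (by omega)
      rw [div_pow, one_pow, mul_one_div, div_le_div_iff₀ (by positivity) (by positivity)]
      nlinarith [mul_le_mul_of_nonneg_left a2 (by positivity : 0 ≤ A * A)]
  choose c hc using h.bdd hρ
  refine ⟨∑ n ∈ Finset.range (max n0 N), q^n * |c n| + q^(max n0 N) / A, fun s hs n => ?_⟩
  have hS : 0 ≤ ∑ n ∈ Finset.range (max n0 N), q^n * |c n| :=
    Finset.sum_nonneg fun n _ => by positivity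
  have hq0 : 0 < q := by linarith
  rcases Nat.lt_or_ge n (max n0 N) with hn | hn
  · have a1 := Finset.single_le_sum (f := fun n => q^n * |c n|) (fun n _ => by positivity)
      (Finset.mem_range.2 hn)
    have a2 := mul_le_mul_of_nonneg_left ((hc n s hs).trans (le_abs_self _))
      (by positivity : 0 ≤ q^n)
    have a3 : 0 ≤ q^(max n0 N) / A := by positivity
    linarith
  · obtain ⟨j, rfl⟩ := Nat.exists_eq_add_of_le hn
    have a1 := mul_le_mul_of_nonneg_left (h1 j s hs) (by positivity : 0 ≤ q^(max n0 N + j))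
    have a2 : q^(max n0 N + j) * (1 / (A * q^(j+1))) ≤ q^(max n0 N) / A := by
      rw [mul_one_div, div_le_div_iff₀ (by positivity) (by positivity), pow_add, pow_succ]
      have : 0 ≤ q^(max n0 N) * q^j * A := by positivity
      nlinarith
    linarith

theorem small_tail (a : ℝ) {ε : ℝ} (hε : 0 < ε) : ∃ j0 : ℕ, ∀ j, j0 ≤ j → a * (1 / 2^j) ≤ ε := by
  have h : Filter.Tendsto (fun j : ℕ => a * (1 / 2^j)) Filter.atTop (nhds (a * 0)) := by
    refine Filter.Tendsto.const_mul a ?_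
    simpa using tendsto_pow_atTop_nhds_zero_of_lt_one (r := (1/2 : ℝ)) (by norm_num) (by norm_num)
  rw [mul_zero] at h
  exact Filter.eventually_atTop.1 ((h.eventually (gt_mem_nhds hε)).mono fun _ h => h.le)

/-- The invariant of the iteration. -/
def Inv (U : ℝ → ℕ → ℝ) (T a0 : ℝ) (p : ℕ) (t a : ℝ) : Prop :=
  0 ≤ t ∧ t + 7 / a ≤ T ∧ a0 * (19405/16384)^p ≤ a ∧ State p (fun m => U t m / a) ∧ Tail U t

theorem Inv.next {ν L a0 t a : ℝ} {p : ℕ} (h : Flow ρ (fun m => ν * L^m) T U)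
    (hρ : |ρ - 25/16| ≤ 27/2^20) (hν : 0 < ν) (hL : 1 ≤ L) (hL1 : L ≤ 19405/16384)
    (ha0 : ν * L^14 * 2^24 ≤ a0) (hI : Inv U T a0 p t a) :
    ∃ t' a', t < t' ∧ Inv U T a0 (p+1) t' a' := by
  obtain ⟨h1, h2, h3, h4, h5⟩ := hI
  have ha00 : 0 < a0 := lt_of_lt_of_le (by positivity) ha0
  have ha : 0 < a := lt_of_lt_of_le (by positivity) h3
  have hF := h.rescale (b := 1025/1024) h1 ha
    (le_trans (by linarith [div_le_div_of_nonneg_right (by norm_num : (1025/1024:ℝ) ≤ 7) ha.le]) h2)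
  obtain ⟨⟨s, hs, g, hg, hS⟩, hT⟩ := stage (p := p) hF hρ (fun m hm => by
      rw [div_le_iff₀ ha]
      have a1 : L^m ≤ L^14 * (19405/16384)^p := by
        refine (pow_le_pow_right₀ hL hm).trans ?_
        rw [pow_add, mul_comm]
        exact mul_le_mul_of_nonneg_left (pow_le_pow_left₀ (by linarith) hL1 p) (by positivity)
      have a2 := mul_le_mul_of_nonneg_right ha0 (by positivity : (0:ℝ) ≤ (19405/16384)^p)
      have a3 := mul_le_mul_of_nonneg_left a1 hν.le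
      linarith) (by simpa using h4)
  have hs0 : 0 < s / a := div_pos (by linarith [hs.1]) ha
  have hg0 : 0 < g := by linarith
  refine ⟨t + s / a, a * g, by linarith, by linarith, ?_, ?_, by simpa only [div_div] using hS,
    fun ε hε => ?_⟩
  · have : s / a + 7 / (a * g) ≤ 7 / a := by
      rw [div_add_div _ _ ha.ne' (by positivity), div_le_div_iff₀ (by positivity) ha]
      have : s * g + 7 ≤ 7 * g := by nlinarith [hs.2]
      nlinarith [mul_le_mul_of_nonneg_left this (by positivity : 0 ≤ a * a)]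
    linarith
  · rw [pow_succ, ← mul_assoc]
    exact mul_le_mul h3 hg (by norm_num) ha.le
  · obtain ⟨n0, hn0⟩ := h5 ε hε
    obtain ⟨j0, hj0⟩ := small_tail a hε
    refine ⟨max n0 (p + 14 + j0), fun n hn r hr => ?_⟩
    rcases le_total r t with h6 | h6
    · exact hn0 n (by omega) r ⟨hr.1, h6⟩
    · obtain ⟨j, rfl⟩ := Nat.exists_eq_add_of_le (show p + 14 ≤ n by omega)
      have a1 := hT ((r - t) * a) ⟨mul_nonneg (by linarith) ha.le, by
        have := (le_div_iff₀ ha).1 (show r - t ≤ s / a by linarith [hr.2])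
        linarith [hs.2]⟩ j
      rw [mul_div_assoc, div_self ha.ne', mul_one, add_sub_cancel, div_le_iff₀' ha] at a1
      exact a1.trans (hj0 j (by omega))

theorem blowup {ν L a0 : ℝ} (h : Flow ρ (fun m => ν * L^m) (7 / a0) U)
    (hρ : |ρ - 25/16| ≤ 27/2^20) (hν : 0 < ν) (hL : 1 ≤ L) (hL1 : L < 19405/16384)
    (ha0 : ν * L^14 * 2^24 ≤ a0) (hS : State 0 (fun m => U 0 m / a0))
    (h0 : ∀ n, 13 < n → U 0 n = 0) :
    ∃ T0 ∈ Ioc 0 (7 / a0), (∀ t < T0, ∀ q, 1 ≤ q → ∃ C, ∀ s ∈ Icc 0 t, ∀ n, q^n * U s n ≤ C) ∧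
      ∀ C, ∃ s ∈ Ico 0 T0, ∃ n, C * L^n < U s n := by
  have ha00 : 0 < a0 := lt_of_lt_of_le (by positivity) ha0
  have hρ0 : 0 ≤ ρ := by linarith [(abs_le.1 hρ).1]
  have hI0 : Inv U (7 / a0) a0 0 0 a0 := ⟨le_rfl, by simp, by simp, hS, fun ε hε =>
    ⟨14, fun n hn s hs => by rw [le_antisymm hs.2 hs.1, h0 n (by omega)]; exact hε.le⟩⟩
  have hall : ∀ p, ∃ t a, Inv U (7 / a0) a0 p t a := by
    intro p
    induction p with
    | zero => exact ⟨_, _, hI0⟩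
    | succ p ih =>
      obtain ⟨t, a, ih⟩ := ih
      obtain ⟨t', a', -, h'⟩ := ih.next h hρ hν hL hL1.le ha0
      exact ⟨_, _, h'⟩
  set A := {t | ∃ p a, Inv U (7 / a0) a0 p t a}
  have hle : ∀ t ∈ A, t ≤ 7 / a0 := by
    rintro t ⟨p, a, h1, h2, h3, -⟩
    have : 0 < a := lt_of_lt_of_le (by positivity) h3
    have : 0 < 7 / a := by positivity
    linarith
  have hne : A.Nonempty := ⟨0, 0, a0, hI0⟩
  have hlt : ∀ t ∈ A, t < sSup A := by
    rintro t ⟨p, a, hI⟩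
    obtain ⟨t', a', h1, h'⟩ := hI.next h hρ hν hL hL1.le ha0
    exact h1.trans_le (le_csSup ⟨_, hle⟩ ⟨_, _, h'⟩)
  refine ⟨sSup A, ⟨hlt 0 ⟨0, a0, hI0⟩, csSup_le hne hle⟩, fun t ht q hq => ?_, fun C => ?_⟩
  · obtain ⟨t', ht', h1⟩ := exists_lt_of_lt_csSup hne ht
    have h2 := hle t' ht'
    obtain ⟨p, a, h3, -, -, -, h4⟩ := ht'
    obtain ⟨C, hC⟩ := (h.mono h2).smooth hρ0 h3 h0 h4 hq
    exact ⟨C, fun s hs => hC s ⟨hs.1, hs.2.trans h1.le⟩⟩
  · have hL0 : 0 < L := by linarith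
    obtain ⟨p, hp⟩ := pow_unbounded_of_one_lt (C * L^9 * 4 / a0)
      ((one_lt_div hL0).2 hL1)
    obtain ⟨t, a, hI⟩ := hall p
    refine ⟨t, ⟨hI.1, hlt t ⟨p, a, hI⟩⟩, p + 9, ?_⟩
    obtain ⟨-, -, h3, h4, -⟩ := hI
    have ha : 0 < a := lt_of_lt_of_le (by positivity) h3
    have a1 := h4.low
    rw [le_div_iff₀ ha] at a1
    rw [div_pow, div_lt_div_iff₀ ha00 (by positivity)] at hp
    rw [pow_add]
    linarith

end Pool.Agent.Work.MP_6bf1e5_an.Bl
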