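import Pool.Agent.Work.MP_6bf1e5_an.Bl.Iter
import Pool.Agent.Work.MP_6bf1e5_an.Bl.Exist
import Pool.Agent.Work.MP_6bf1e5_an.Dy.Defs

/-! Blow-up for the viscous dyadic model below the exponent three. -/

namespace Pool.Agent.Work.MP_6bf1e5_an.Bl

open SP Set Dy

theorem nonneg_of_lin {f g c : ℝ → ℝ} {T : ℝ}
    (hf : ∀ t ∈ Icc 0 T, HasDerivWithinAt f (g t - c t * f t) (Ici 0) t)
    (hg : ∀ t ∈ Icc 0 T, 0 ≤ g t) (hc : ContinuousOn c (Icc 0 T)) (h0 : 0 ≤ f 0) :
    ∀ t ∈ Icc 0 T, 0 ≤ f t := by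
  intro t ht
  obtain ⟨C, hC⟩ := isCompact_Icc.exists_bound_of_continuousOn hc
  refine le_of_forall_pos_le_add fun ε hε => ?_
  have he : 0 < Real.exp ((C + 1) * t) := Real.exp_pos _
  obtain ⟨δ, hδ0, hδ⟩ : ∃ δ, 0 < δ ∧ δ * Real.exp ((C + 1) * t) = ε :=
    ⟨ε / Real.exp ((C + 1) * t), by positivity, by field_simp⟩
  have := inv_finite ({()} : Finset Unit) (fun _ t => f t + δ * Real.exp ((C + 1) * t))
    (fun _ t => g t - c t * f t + δ * (Real.exp ((C + 1) * t) * (C + 1))) (a := 0) (b := T)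
    (fun _ _ s hs => (hf s hs).add (by
      simpa using (((hasDerivAt_id s).const_mul (C + 1)).exp.const_mul δ).hasDerivWithinAt))
    (fun _ _ => by positivity)
    (fun s hs _ _ _ h => by
      have a1 : 0 < δ * Real.exp ((C + 1) * s) := by positivity
      have a2 := (abs_le.1 (hC s hs)).1
      have a3 := hg s hs
      have a4 : f s = -(δ * Real.exp ((C + 1) * s)) := by linarith
      rw [a4]
      nlinarith) t ht () (by simp)
  linarith

theorem rpow_nat {lam : ℝ} (h : 0 < lam) (γ : ℝ) (n : ℕ) : lam ^ (γ * n) = (lam ^ γ) ^ n :=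
  by rw [Real.rpow_mul h.le, Real.rpow_natCast]

theorem solves_iff' {lam β ν : ℝ} (hlam : 0 < lam) (S : Set ℝ) (X : ℝ → ℕ → ℝ) :
    DyadicSolvesOn lam β ν 0 S X ↔ ∀ t ∈ S, X t 0 = 0 ∧ ∀ n : ℕ,
      HasDerivWithinAt (fun s => X s (n+1)) (Fe ν (lam^2) (lam^β) (X t) (n+1)) (Ici 0) t := by
  refine forall₂_congr fun t _ => and_congr_right fun _ => forall_congr' fun n => ?_
  have e : lam ^ (β * ((n:ℝ) + 1)) = (lam ^ β) ^ (n+1) := by
    rw [← rpow_nat hlam]
    push_cast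
    rfl
  rw [e, rpow_nat hlam, pow_mul]
  simp [Fe]

theorem flow_of {ν L κ T : ℝ} {X : ℝ → ℕ → ℝ} (hν : 0 < ν) (hL : 0 < L) (hκ : 0 < κ)
    (h : ∀ t ∈ Icc 0 T, X t 0 = 0 ∧ ∀ n : ℕ,
      HasDerivWithinAt (fun s => X s (n+1)) (Fe ν L κ (X t) (n+1)) (Ici 0) t)
    (h0 : ∀ n, 0 ≤ X 0 n) :
    Flow (κ^2) (fun m => ν * L^m) T (fun t m => κ^m / κ * X t m) := by
  have hp : ∀ t ∈ Icc 0 T, ∀ n, 0 ≤ X t n := by
    intro t ht n
    cases n with
    | zero => exact (h t ht).1.ge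
    | succ n =>
      refine nonneg_of_lin (f := fun s => X s (n+1)) (g := fun s => κ^n * X s n^2)
        (c := fun s => ν * L^(n+1) + κ^(n+1) * X s (n+2))
        (fun s hs => ((h s hs).2 n).congr_deriv ?_) (fun s _ => by positivity)
        (continuousOn_const.add (continuousOn_const.mul fun s hs =>
          ((h s hs).2 (n+1)).continuousWithinAt.mono Icc_subset_Ici_self)) (h0 _) t ht
      simp only [Fe, Nat.add_sub_cancel]
      ring
  refine ⟨fun s hs => by simp [(h s hs).1], fun s hs m => mul_nonneg (by positivity) (hp s hs m),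
    fun m => by positivity, fun s hs m => (((h s hs).2 m).const_mul _).congr_deriv ?_⟩
  simp only [Fe, Nat.add_sub_cancel]
  field_simp
  ring

theorem chk_pos : ∀ l < 14, 0 ≤ loL (cc.Y l).c0.c ∧ 0 ≤ cc.r l := by decide +kernel

theorem L_lt {lam β : ℝ} (hlam : 1 < lam) (hβ : 66/25 ≤ β) (hκ : lam ^ β ≤ 125001/100000) :
    lam^2 < 19405/16384 := by
  have h0 : 0 < lam := by linarith
  have h1 : (lam^2)^33 ≤ (lam ^ β)^25 := by
    rw [← pow_mul, ← Real.rpow_natCast, ← Real.rpow_natCast, ← Real.rpow_mul h0.le]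
    exact Real.rpow_le_rpow_of_exponent_le hlam.le (by push_cast; linarith)
  have h2 : (lam ^ β)^25 ≤ (125001/100000)^25 := pow_le_pow_left₀ (by positivity) hκ 25
  refine lt_of_pow_lt_pow_left₀ 33 (by norm_num) (h1.trans_lt (h2.trans_lt ?_))
  norm_num

theorem main (lam β ν : ℝ) (hlam : 1 < lam) (hβ : 66 / 25 ≤ β)
    (hκ : |lam ^ β - 5 / 4| ≤ 1 / 100000) (hν : 0 < ν) :
    ∃ (x : ℕ → ℝ) (T : ℝ), 0 < T ∧ x 0 = 0 ∧ (∀ n, 0 ≤ x n) ∧ (∀ n, 13 < n → x n = 0) ∧
      (∃ X : ℝ → ℕ → ℝ, DyadicSolvesOn lam β ν 0 (Set.Ici 0) X ∧ X 0 = x ∧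
        WeightBounded lam 0 (Set.Ici 0) X) ∧
      ∀ X : ℝ → ℕ → ℝ, DyadicSolvesOn lam β ν 0 (Set.Icc 0 T) X → X 0 = x →
        ∃ T₀ ∈ Set.Ioc 0 T, (∀ t < T₀, ∀ γ : ℝ, WeightBounded lam γ (Set.Icc 0 t) X) ∧
          ¬ WeightBounded lam (β - 2) (Set.Ico 0 T₀) X := by
  have h0 : 0 < lam := by linarith
  have hκ' := abs_le.1 hκ
  have hL1 := L_lt hlam hβ (by linarith [hκ'.2])
  have hL : 1 ≤ lam^2 := one_le_pow₀ hlam.le
  set κ := lam ^ β with hκd
  set L := lam ^ 2 with hLd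
  have hκ0 : 0 < κ := by linarith [hκ'.1]
  have hκ1 : 1 ≤ κ := by linarith [hκ'.1]
  obtain ⟨a0, ha0⟩ : ∃ a0, a0 = ν * L^14 * 2^24 := ⟨_, rfl⟩
  have ha : 0 < a0 := by rw [ha0]; positivity
  set x : ℕ → ℝ := fun n => if 1 ≤ n ∧ n ≤ 13 then κ / κ^n * (a0 * (cc.Y n).ev 0) else 0 with hx
  have hxp : ∀ n, 0 ≤ x n := fun n => by
    simp only [hx]
    split_ifs with h
    · have := nonneg_of (chk_pos n (by omega)).1 (s := 0) ⟨le_rfl, by norm_num⟩
      rw [ev_c0] at this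
      positivity
    · exact le_rfl
  have hxz : ∀ n, 13 < n → x n = 0 := fun n hn => if_neg (by omega)
  refine ⟨x, 7 / a0, by positivity, if_neg (by omega), hxp, hxz, ?_, fun X hX hX0 => ?_⟩
  · obtain ⟨X, h1, h2⟩ := exists_weak κ hν.le (by linarith : 0 ≤ L) x (if_neg (by omega))
      (E := ∑ n ∈ Finset.range 14, x n^2) (fun N => by
        rw [Finset.sum_subset (s₁ := Finset.range 14) (s₂ := Finset.range (N + 14))
          (Finset.range_mono (by omega))
          (fun n _ hn => by rw [hxz n (by simpa [Nat.succ_le_iff] using hn)]; norm_num)]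
        exact Finset.sum_le_sum_of_subset_of_nonneg (fun n hn => by
          have := Finset.mem_Icc.1 hn
          exact Finset.mem_range.2 (by omega)) (fun n _ _ => by positivity))
    exact ⟨X, (solves_iff' h0 _ X).2 fun t ht => ⟨(h2 t ht).1, fun n => (h2 t ht).2.2 _ (by omega)⟩,
      h1, _, fun t ht n => by simpa using (h2 t ht).2.1 n⟩
  have hF := flow_of hν (by linarith) hκ0 ((solves_iff' h0 _ X).1 hX) (by rw [hX0]; exact hxp)
  obtain ⟨T0, hT0, h1, h2⟩ := blowup (ν := ν) (L := L) hF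
    (by
      rw [abs_le]
      constructor <;> nlinarith [hκ'.1, hκ'.2]) hν hL hL1 ha0.ge
    (by
      simp only [hX0]
      refine ⟨fun m hm => ?_, fun l hl => ?_, fun j => ?_⟩
      · obtain rfl : m = 0 := by omega
        simp only [hx, rv]
        norm_num
      · have e : κ^(0 + (l+1)) / κ * x (0 + (l+1)) / a0 = (cc.Y (l+1)).ev 0 := by
          simp only [hx, zero_add]
          rw [if_pos (by omega)]
          field_simp
        simp only [e, sub_self, abs_zero, rv]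
        have : (0:ℝ) ≤ cc.r l := by exact_mod_cast (chk_pos l (by omega)).2
        positivity
      · simp only [hxz _ (show 13 < 0 + 14 + j by omega), rv, mul_zero, zero_div]
        positivity)
    (fun n hn => by simp only [hX0, hxz n hn, mul_zero])
  have hXU : ∀ t ∈ Icc 0 (7 / a0), ∀ n, |X t n| = κ / κ^n * (κ^n / κ * X t n) := by
    intro t ht n
    have := hF.pos t ht n
    rw [abs_of_nonneg (nonneg_of_mul_nonneg_right this (by positivity))]
    field_simp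
  refine ⟨T0, hT0, fun t ht γ => ?_, ?_⟩
  · obtain ⟨C, hC⟩ := h1 t ht (max 1 (lam ^ γ)) (le_max_left _ _)
    refine ⟨κ * C, fun s hs n => ?_⟩
    have hs' : s ∈ Icc 0 (7 / a0) := ⟨hs.1, hs.2.trans (ht.le.trans hT0.2)⟩
    rw [hXU s hs', rpow_nat h0]
    have a1 := hF.pos s hs' n
    have a2 : (lam ^ γ)^n ≤ (max 1 (lam ^ γ))^n :=
      pow_le_pow_left₀ (by positivity) (le_max_right _ _) n
    have a3 : κ / κ^n ≤ κ := div_le_self hκ0.le (one_le_pow₀ hκ1)
    calc _ ≤ (max 1 (lam ^ γ))^n * (κ * (κ^n / κ * X s n)) :=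
          mul_le_mul a2 (mul_le_mul_of_nonneg_right a3 a1) (by positivity) (by positivity)
      _ = κ * ((max 1 (lam ^ γ))^n * (κ^n / κ * X s n)) := by ring
      _ ≤ κ * C := mul_le_mul_of_nonneg_left (hC s hs n) hκ0.le
  · rintro ⟨C, hC⟩
    obtain ⟨s, hs, n, hn⟩ := h2 (C / κ)
    have a1 := hC s hs n
    have e : lam ^ (β - 2) = κ / L := by
      rw [Real.rpow_sub h0, hκd, hLd]
      norm_num
    rw [hXU s ⟨hs.1, hs.2.le.trans hT0.2⟩, rpow_nat h0, e, div_pow] at a1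
    have hL0 : 0 < L := by linarith
    have e2 : ∀ u : ℝ, κ^n / L^n * (κ / κ^n * u) = κ * u / L^n := fun u => by field_simp
    rw [e2, div_le_iff₀ (by positivity)] at a1
    rw [div_mul_eq_mul_div, div_lt_iff₀' hκ0] at hn
    linarith

end Pool.Agent.Work.MP_6bf1e5_an.Bl
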