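import Mathlib

/-! Polynomials with dyadic coefficients, given by integer lists and a power of two. -/

namespace Pool.Agent.Work.MP_6bf1e5_an.Bl

def evL : List ℤ → ℝ → ℝ
  | [], _ => 0
  | a :: p, s => a + s * evL p s

def addL : List ℤ → List ℤ → List ℤ
  | [], q => q
  | a :: p, [] => a :: p
  | a :: p, b :: q => (a + b) :: addL p q

def smL (c : ℤ) : List ℤ → List ℤ
  | [] => []
  | a :: p => (c * a) :: smL c p

def mulL : List ℤ → List ℤ → List ℤ
  | [], _ => []
  | a :: p, q => addL (smL a q) (0 :: mulL p q)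

def derL : List ℤ → List ℤ
  | [] => []
  | _ :: p => addL p (0 :: derL p)

def sumL : List ℤ → ℤ
  | [] => 0
  | a :: p => a + sumL p

def quoL : List ℤ → List ℤ
  | [] => []
  | _ :: p => sumL p :: quoL p

def absL : List ℤ → List ℤ
  | [] => []
  | a :: p => (a.natAbs : ℤ) :: absL p

def negP : ℤ → ℤ
  | Int.ofNat _ => 0
  | Int.negSucc n => Int.negSucc n + Int.negSucc n / 1024

def loL : List ℤ → ℤ
  | [] => 0
  | a :: p => a + negP (loL p)

theorem ev_addL (p q : List ℤ) (s : ℝ) : evL (addL p q) s = evL p s + evL q s := by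
  induction p generalizing q with
  | nil => simp [addL, evL]
  | cons a p ih =>
    cases q with
    | nil => simp [addL, evL]
    | cons b q => simp only [addL, evL, ih, Int.cast_add]; ring

theorem ev_smL (c : ℤ) (p : List ℤ) (s : ℝ) : evL (smL c p) s = c * evL p s := by
  induction p with
  | nil => simp [smL, evL]
  | cons a p ih => simp only [smL, evL, ih, Int.cast_mul]; ring

theorem ev_mulL (p q : List ℤ) (s : ℝ) : evL (mulL p q) s = evL p s * evL q s := by
  induction p with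
  | nil => simp [mulL, evL]
  | cons a p ih => simp only [mulL, ev_addL, ev_smL, evL, ih, Int.cast_zero]; ring

theorem hasDerivAt_evL (p : List ℤ) (s : ℝ) : HasDerivAt (evL p) (evL (derL p) s) s := by
  induction p with
  | nil => simpa [evL, derL] using (hasDerivAt_const s (0:ℝ) : HasDerivAt (fun _ => (0:ℝ)) 0 s)
  | cons a p ih =>
    have := ((hasDerivAt_id s).mul ih).const_add (a:ℝ)
    refine this.congr_deriv ?_
    simp only [derL, ev_addL, evL, Int.cast_zero, id]
    ring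

theorem ev_quoL (p : List ℤ) (s : ℝ) : evL p s = sumL p + (s - 1) * evL (quoL p) s := by
  induction p with
  | nil => simp [quoL, sumL, evL]
  | cons a p ih =>
    simp only [quoL, sumL, evL, Int.cast_add]
    linear_combination s * ih

theorem abs_evL (p : List ℤ) {s : ℝ} (hs : 0 ≤ s) : |evL p s| ≤ evL (absL p) s := by
  induction p with
  | nil => simp [absL, evL]
  | cons a p ih =>
    simp only [absL, evL, Int.natCast_natAbs, Int.cast_abs]
    refine (abs_add_le _ _).trans (add_le_add le_rfl ?_)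
    rw [abs_mul, abs_of_nonneg hs]
    exact mul_le_mul_of_nonneg_left ih hs

theorem negP_le (m : ℤ) {s x : ℝ} (h0 : 0 ≤ s) (h1 : s ≤ 1025/1024) (hx : (m:ℝ) ≤ x) :
    (negP m : ℝ) ≤ s * x := by
  cases m with
  | ofNat n =>
    have : (0:ℝ) ≤ x := le_trans (by simp) hx
    simp only [negP, Int.cast_zero]
    positivity
  | negSucc n =>
    simp only [negP, Int.cast_add]
    have h2 : ((Int.negSucc n / 1024 : ℤ) : ℝ) * 1024 ≤ (Int.negSucc n : ℤ) := by
      exact_mod_cast Int.ediv_mul_le (Int.negSucc n) (by norm_num : (1024:ℤ) ≠ 0)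
    have h3 : ((Int.negSucc n : ℤ) : ℝ) ≤ 0 := by exact_mod_cast (Int.negSucc_lt_zero n).le
    nlinarith [mul_le_mul_of_nonneg_left hx h0]

theorem loL_le (p : List ℤ) {s : ℝ} (h0 : 0 ≤ s) (h1 : s ≤ 1025/1024) : (loL p : ℝ) ≤ evL p s := by
  induction p with
  | nil => simp [loL, evL]
  | cons a p ih =>
    simp only [loL, evL, Int.cast_add]
    linarith [negP_le _ h0 h1 ih]

/-- The polynomial with coefficients `c` divided by `2 ^ e`. -/
structure SP where
  e : ℕ
  c : List ℤ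

namespace SP

noncomputable def ev (p : SP) (s : ℝ) : ℝ := evL p.c s / 2 ^ p.e

def add (p q : SP) : SP :=
  ⟨p.e + (q.e - p.e), addL (smL (2 ^ (q.e - p.e)) p.c) (smL (2 ^ (p.e - q.e)) q.c)⟩

def sub (p q : SP) : SP :=
  ⟨p.e + (q.e - p.e), addL (smL (2 ^ (q.e - p.e)) p.c) (smL (-2 ^ (p.e - q.e)) q.c)⟩

def mul (p q : SP) : SP := ⟨p.e + q.e, mulL p.c q.c⟩
def abs (p : SP) : SP := ⟨p.e, absL p.c⟩
def der (p : SP) : SP := ⟨p.e, derL p.c⟩
def quo (p : SP) : SP := ⟨p.e, quoL p.c⟩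
def c1 (p : SP) : SP := ⟨p.e, [sumL p.c]⟩
def c0 (p : SP) : SP := ⟨p.e, [p.c.headD 0]⟩
def k (a : ℤ) : SP := ⟨32, [a]⟩

def sum (f : ℕ → SP) : ℕ → SP
  | 0 => ⟨0, []⟩
  | n + 1 => add (sum f n) (f n)

theorem pow_split (a b : ℕ) : (2:ℝ) ^ (a + (b - a)) = 2 ^ b * 2 ^ (a - b) := by
  rw [← pow_add]
  congr 1
  omega

@[simp] theorem ev_add (p q : SP) (s : ℝ) : (add p q).ev s = p.ev s + q.ev s := by
  simp only [ev, add, ev_addL, ev_smL, Int.cast_pow, Int.cast_ofNat, add_div]
  congr 1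
  · rw [pow_add]; field_simp
  · rw [pow_split]; field_simp

@[simp] theorem ev_sub (p q : SP) (s : ℝ) : (sub p q).ev s = p.ev s - q.ev s := by
  simp only [ev, sub, ev_addL, ev_smL, Int.cast_pow, Int.cast_ofNat, add_div, Int.cast_neg,
    sub_eq_add_neg (evL p.c s / _)]
  congr 1
  · rw [pow_add]; field_simp
  · rw [pow_split]; field_simp

@[simp] theorem ev_mul (p q : SP) (s : ℝ) : (mul p q).ev s = p.ev s * q.ev s := by
  simp only [ev, mul, ev_mulL, pow_add]
  field_simp

@[simp] theorem ev_sum (f : ℕ → SP) (n : ℕ) (s : ℝ) :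
    (sum f n).ev s = ∑ l ∈ Finset.range n, (f l).ev s := by
  induction n with
  | zero => simp [sum, ev, evL]
  | succ n ih => rw [sum, ev_add, ih, Finset.sum_range_succ]

/-- The real number represented by an integer. -/
noncomputable def rv (a : ℤ) : ℝ := a / 2 ^ 32

@[simp] theorem ev_k (a : ℤ) (s : ℝ) : (k a).ev s = rv a := by simp [ev, k, evL, rv]

theorem ev_c0 (p : SP) (s : ℝ) : p.c0.ev s = p.ev 0 := by
  cases h : p.c <;> simp [ev, c0, evL, h]

theorem ev_c1 (p : SP) (s t : ℝ) : p.c1.ev s = p.c1.ev t := by simp [ev, c1, evL]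

theorem ev_quo (p : SP) (s : ℝ) : p.ev s = p.c1.ev s + (s - 1) * p.quo.ev s := by
  simp only [ev, c1, quo, evL]
  rw [ev_quoL p.c s]
  ring

theorem abs_ev (p : SP) {s : ℝ} (hs : 0 ≤ s) : |p.ev s| ≤ p.abs.ev s := by
  simp only [ev, abs, abs_div]
  rw [abs_of_pos (by positivity : (0:ℝ) < 2 ^ p.e)]
  exact div_le_div_of_nonneg_right (abs_evL _ hs) (by positivity)

theorem hasDerivAt (p : SP) (s : ℝ) : HasDerivAt p.ev (p.der.ev s) s :=
  (hasDerivAt_evL p.c s).div_const _

theorem pos_of {p : SP} (h : 0 < loL p.c) {s : ℝ} (hs : s ∈ Set.Icc (0:ℝ) (1025/1024)) :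
    0 < p.ev s :=
  div_pos (lt_of_lt_of_le (by exact_mod_cast h) (loL_le _ hs.1 hs.2)) (by positivity)

theorem nonneg_of {p : SP} (h : 0 ≤ loL p.c) {s : ℝ} (hs : s ∈ Set.Icc (0:ℝ) (1025/1024)) :
    0 ≤ p.ev s :=
  div_nonneg (le_trans (by exact_mod_cast h) (loL_le _ hs.1 hs.2)) (by positivity)

end SP

end Pool.Agent.Work.MP_6bf1e5_an.Bl
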