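import Pool.Agent.Work.MP_6bf1e5_an.Bl.Tube
import Pool.Agent.Work.MP_6bf1e5_an.Bl.Chk
import Pool.Agent.Work.MP_6bf1e5_an.Bl.Chk2

/-! One stage of the cascade: the front moves by one shell and its amplitude grows. -/

namespace Pool.Agent.Work.MP_6bf1e5_an.Bl

open SP Set

theorem up_fence {f f' : ℝ → ℝ} {a b K : ℝ}
    (hf : ∀ t ∈ Icc a b, HasDerivWithinAt f (f' t) (Ici a) t)
    (hK : ∀ t ∈ Icc a b, f' t ≤ K) : ∀ t ∈ Icc a b, f t ≤ f a + K * (t - a) := by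
  intro t ht
  refine image_le_of_deriv_right_le_deriv_boundary (f := f) (f' := f') (a := a) (b := b)
    (B := fun t => f a + K * (t - a)) (B' := fun _ => K)
    (fun s hs => (hf s hs).continuousWithinAt.mono Icc_subset_Ici_self)
    (fun s hs => (hf s ⟨hs.1, hs.2.le⟩).mono (Ici_subset_Ici.2 hs.1)) (by simp) (by fun_prop)
    (fun s _ => ?_) (fun s hs => hK s ⟨hs.1, hs.2.le⟩) ht
  simpa using ((((hasDerivAt_id s).sub_const a).const_mul K).const_add (f a)).hasDerivWithinAt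

/-- Nonnegative solutions of the translation invariant system on `[0, b]`. -/
structure Flow (ρ : ℝ) (μ : ℕ → ℝ) (b : ℝ) (Y : ℝ → ℕ → ℝ) : Prop where
  zero : ∀ s ∈ Icc 0 b, Y s 0 = 0
  pos : ∀ s ∈ Icc 0 b, ∀ m, 0 ≤ Y s m
  mu : ∀ m, 0 ≤ μ m
  ode : ∀ s ∈ Icc 0 b, ∀ m, HasDerivWithinAt (fun s => Y s (m+1))
    (ρ * Y s m ^ 2 - Y s (m+1) * Y s (m+2) - μ (m+1) * Y s (m+1)) (Ici 0) s

theorem Flow.step {ρ b c : ℝ} {μ : ℕ → ℝ} {Y : ℝ → ℕ → ℝ} (h : Flow ρ μ b Y) (hρ : 0 ≤ ρ) {m : ℕ}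
    (hc : ∀ s ∈ Icc 0 b, Y s m ≤ c) : ∀ s ∈ Icc 0 b, Y s (m+1) ≤ Y 0 (m+1) + ρ * b * c^2 := by
  intro s hs
  have h1 := up_fence (K := ρ * c^2) (fun t ht => h.ode t ht m) (fun t ht => by
    have a1 := mul_nonneg (h.pos t ht (m+1)) (h.pos t ht (m+2))
    have a2 := mul_nonneg (h.mu (m+1)) (h.pos t ht (m+1))
    have a3 := mul_le_mul_of_nonneg_left (pow_le_pow_left₀ (h.pos t ht m) (hc t ht) 2) hρ
    linarith) s hs
  have h2 := mul_le_mul_of_nonneg_left hs.2 (by positivity : 0 ≤ ρ * c^2)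
  linarith

/-- The state at the beginning of stage `p`, for amplitude one. -/
def State (p : ℕ) (v : ℕ → ℝ) : Prop :=
  (∀ m ≤ p, v m ≤ rv 346161152) ∧
  (∀ l < 13, |v (p + (l+1)) - (cc.Y (l+1)).ev 0| ≤ rv (cc.r l)) ∧
  ∀ j, v (p + 14 + j) ≤ rv 4096 / 2^j

theorem cc_d : cc.d = 13 := rfl

theorem w0 (z : ℕ → ℝ) (s : ℝ) : cc.w z s 0 = 3113/65536 := by
  have h1 : cc.Y 0 = ⟨40, [52227473408]⟩ := rfl
  have h2 : ∀ l, cc.M 0 l = ⟨30, [0]⟩ := fun l => by simp [Cert.M, cc]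
  simp only [Cert.w, Cert.v, h1, h2, ev, evL]
  norm_num

theorem B0 (s : ℝ) : (cc.B 0).ev s = 3113/65536 := by
  have h1 : cc.B 0 = ⟨44, [835639574528]⟩ := rfl
  simp only [h1, ev, evL]
  norm_num

theorem w14 (z : ℕ → ℝ) (s : ℝ) : cc.w z s 14 = 0 := by
  have h1 : cc.Y 14 = ⟨40, []⟩ := rfl
  have h2 : ∀ l ∈ Finset.range cc.d, (cc.M 14 l).ev s * z l = 0 := fun l hl => by
    have : l ≠ 13 := by
      have := Finset.mem_range.1 hl
      rw [cc_d] at this
      omega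
    have h3 : cc.Nd.getD 14 [] = [] := rfl
    rw [Cert.M, h3, if_neg (by omega)]
    simp [ev, evL]
  rw [Cert.w, Cert.v, Finset.sum_eq_zero h2, h1]
  simp [ev, evL]

theorem B15 (s : ℝ) : (cc.B 15).ev s = 0 := by
  have h1 : cc.B 15 = ⟨44, []⟩ := rfl
  simp [h1, ev, evL]

theorem rv_rho : rv cc.rho = 25/16 := by
  have : cc.rho = 6710886400 := rfl
  rw [this, rv]
  norm_num

theorem rv_drho : rv cc.drho = 27/2^20 := by
  have : cc.drho = 110592 := rfl
  rw [this, rv]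
  norm_num

theorem rv_dmu : rv cc.dmu = 1/2^24 := by
  have : cc.dmu = 256 := rfl
  rw [this, rv]
  norm_num

theorem rv_G0 : rv cc.G0 = 19405/16384 := by
  have : cc.G0 = 5086904320 := rfl
  rw [this, rv]
  norm_num

theorem stage {ρ : ℝ} {μ : ℕ → ℝ} {Y : ℝ → ℕ → ℝ} {p : ℕ} (h : Flow ρ μ (1025/1024) Y)
    (hρ : |ρ - 25/16| ≤ 27/2^20) (hμ : ∀ m ≤ p + 14, μ m ≤ 1/2^24) (hS : State p (Y 0)) :
    (∃ s ∈ Icc (1/2 : ℝ) (1025/1024), ∃ g : ℝ, 19405/16384 ≤ g ∧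
      State (p+1) (fun m => Y s m / g)) ∧
    ∀ s ∈ Icc (0:ℝ) (1025/1024), ∀ j, Y s (p + 14 + j) ≤ 1 / 2^j := by
  obtain ⟨hS1, hS2, hS3⟩ := hS
  have hρ' := abs_le.1 hρ
  have hρ0 : 0 ≤ ρ := by linarith [hρ'.1]
  have hρ1 : ρ * (1025/1024) ≤ 157/100 := by linarith [hρ'.2]
  have hI : (0:ℝ) ∈ Icc (0:ℝ) (1025/1024) := ⟨le_rfl, by norm_num⟩
  have hbeh : ∀ m ≤ p, ∀ s ∈ Icc (0:ℝ) (1025/1024), Y s m ≤ 3113/32768 := by
    intro m
    induction m with
    | zero => intro _ s hs; rw [h.zero s hs]; norm_num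
    | succ m ih =>
      intro hm s hs
      have a1 := h.step hρ0 (ih (by omega)) s hs
      have a2 := hS1 _ hm
      rw [rv] at a2
      norm_num at a2
      linarith
  set z : ℕ → ℝ := fun l => Y 0 (p + (l+1)) - (cc.Y (l+1)).ev 0 with hzdef
  have hz : ∀ l < cc.d, |z l| ≤ rv (cc.r l) := hS2
  have htube := Cert.tube (C := cc) (y := fun s i => Y s (p + i)) (ρ := ρ)
    (μ := fun i => μ (p + i)) hz (by rw [rv_rho]; norm_num) (by rwa [rv_rho, rv_drho])
    (fun j hj => ⟨h.mu _, by rw [rv_dmu]; exact hμ _ (by rw [cc_d] at hj; omega)⟩)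
    (fun j hj => by
      rw [cc_d] at hj
      rcases Nat.lt_or_ge j 8 with h8 | h8
      · exact chk_row1 j h8
      · obtain ⟨i, rfl⟩ := Nat.exists_eq_add_of_le' h8
        exact chk_row2 i (by omega))
    (w14 z) B15 (fun s hs j _ => h.ode s hs (p + j)) (fun s hs j => h.pos s hs _)
    (fun s hs => by
      rw [w0, B0, abs_le]
      have a1 := hbeh p le_rfl s hs
      have a2 := h.pos s hs p
      simp only [add_zero]
      constructor <;> linarith)
    (fun j hj => by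
      rcases Nat.lt_or_ge j cc.d with h1 | h1
      · rw [Cert.w_zero j h1]
        rw [cc_d] at h1
        have : 0 ≤ (cc.B (j+1)).ev 0 := nonneg_of (chk_B _ (by omega)) hI
        simpa [hzdef] using this
      · obtain rfl : j = 13 := by rw [cc_d] at hj h1; omega
        have a1 := nonneg_of chk_eta.1 hI
        have a2 := hS3 0
        rw [ev_sub, ev_k] at a1
        rw [w14, sub_zero, abs_of_nonneg (h.pos 0 hI _)]
        simp only [add_zero, pow_zero, div_one] at a2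
        linarith)
  have htail : ∀ j, ∀ s ∈ Icc (0:ℝ) (1025/1024), Y s (p + 14 + j) ≤ 2 * rv 4096 / 2^j := by
    intro j
    induction j with
    | zero =>
      intro s hs
      have a1 := (abs_le.1 (htube s hs 13 le_rfl)).2
      have a2 := nonneg_of chk_eta.2 hs
      rw [ev_sub, ev_k] at a2
      rw [w14] at a1
      simp only [rv] at a2 ⊢
      norm_num at a1 a2 ⊢
      linarith
    | succ j ih =>
      intro s hs
      have a1 := h.step hρ0 ih s hs
      have a2 := hS3 (j+1)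
      have a3 : (0:ℝ) < 1 / 2^j := by positivity
      have a4 : (1:ℝ) / 2^j ≤ 1 := by
        rw [div_le_one (by positivity)]
        exact one_le_pow₀ (by norm_num)
      have e1 : ∀ c : ℝ, c / 2^(j+1) = c / 2 * (1 / 2^j) := fun c => by rw [pow_succ]; field_simp
      have e2 : ∀ c : ℝ, c / 2^j = c * (1 / 2^j) := fun c => by field_simp
      rw [e1] at a2 ⊢
      rw [e2] at a1
      rw [← add_assoc] at a2 ⊢
      generalize (1:ℝ) / 2^j = q at *
      have a5 : ρ * (1025/1024) * (2 * rv 4096 * q)^2 ≤ 157/100 * (2 * rv 4096 * q)^2 :=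
        mul_le_mul_of_nonneg_right hρ1 (by positivity)
      have a6 : q * q ≤ q := by nlinarith
      simp only [rv] at *
      norm_num at *
      nlinarith
  refine ⟨?_, fun s hs j => (htail j s hs).trans
    (div_le_div_of_nonneg_right (by rw [rv]; norm_num) (by positivity))⟩
  obtain ⟨σ, hσ⟩ : ∃ σ, σ = ∑ l ∈ Finset.range cc.d, rv (cc.al l) * z l := ⟨_, rfl⟩
  obtain ⟨γ, hγ⟩ : ∃ γ, γ = ∑ l ∈ Finset.range cc.d, rv (cc.be l) * z l := ⟨_, rfl⟩
  have hσ1 : |σ| ≤ 1/1024 := by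
    have a1 := Cert.sum_bd (fun l => k (cc.al l)) hz le_rfl
    have a2 := nonneg_of chk_ds hI
    simp only [ev_k] at a1
    rw [ev_sub, ev_k, rv, Cert.ds] at a2
    rw [← hσ] at a1
    norm_num at a2 a1 ⊢
    linarith
  have hg : rv cc.G0 ≤ rv cc.G + γ := by
    have a1 := Cert.sum_bd (fun l => k (cc.be l)) hz le_rfl
    have a2 := nonneg_of chk_db hI
    simp only [ev_k] at a1
    rw [ev_sub, ev_sub, ev_k, ev_k, Cert.db] at a2
    rw [← hγ] at a1
    linarith [(abs_le.1 a1).1]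
  have hs : 1 + σ ∈ Icc (0:ℝ) (1025/1024) := by
    constructor <;> linarith [(abs_le.1 hσ1).1, (abs_le.1 hσ1).2]
  have hg1 := hg
  rw [rv_G0] at hg1
  have hg0 : 0 < rv cc.G + γ := by linarith
  refine ⟨1 + σ, ⟨by linarith [(abs_le.1 hσ1).1], hs.2⟩, rv cc.G + γ, hg1, fun m hm => ?_,
    fun l hl => ?_, fun j => ?_⟩
  · rw [div_le_iff₀ hg0]
    have a0 : rv 346161152 * rv cc.G0 ≤ rv 346161152 * (rv cc.G + γ) :=
      mul_le_mul_of_nonneg_left hg (by rw [rv]; norm_num)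
    rcases Nat.lt_or_ge p m with h1 | h1
    · obtain rfl : m = p + 1 := by omega
      have a1 := (abs_le.1 (htube _ hs 0 (Nat.zero_le _))).2
      have a2 := (abs_le.1 (Cert.w_bd hz hs.1 1)).2
      have a3 := nonneg_of chk_beh hs
      rw [ev_sub, ev_mul, ev_k, ev_k, ev_add] at a3
      simp only [zero_add] at a1
      linarith
    · have a1 := hbeh m h1 _ hs
      rw [rv_G0, rv] at a0
      rw [rv]
      norm_num at a0 ⊢
      linarith
  · have a1 := Cert.fin hz hσ hγ hs.1 (nonneg_of (chk_end l hl) hs)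
      (htube _ hs (l+1) (by rw [cc_d]; omega))
    have a2 : 0 ≤ rv (cc.r l) := (abs_nonneg _).trans (hz l hl)
    have e : Y (1+σ) (p + 1 + (l+1)) / (rv cc.G + γ) - (cc.Y (l+1)).ev 0
        = (Y (1+σ) (p + (l+1+1)) - (rv cc.G + γ) * (cc.Y (l+1)).ev 0) / (rv cc.G + γ) := by
      rw [show p + 1 + (l+1) = p + (l+1+1) by ring]
      field_simp
    rw [e, abs_div, abs_of_pos hg0, div_le_iff₀ hg0]
    nlinarith [mul_le_mul_of_nonneg_left hg a2]
  · have a1 := htail (j+1) _ hs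
    rw [div_le_iff₀ hg0, show p + 1 + 14 + j = p + 14 + (j+1) by ring]
    have a2 : 0 ≤ rv 4096 / 2^j := by rw [rv]; positivity
    have e : 2 * rv 4096 / 2^(j+1) = rv 4096 / 2^j := by rw [pow_succ]; field_simp
    rw [e] at a1
    nlinarith

theorem State.low {p : ℕ} {v : ℕ → ℝ} (h : State p v) : 1/4 ≤ v (p + 9) := by
  have a1 := (abs_le.1 (h.2.1 8 (by norm_num))).1
  have a2 := nonneg_of chk_low (s := 0) ⟨le_rfl, by norm_num⟩
  rw [ev_sub, ev_sub, ev_k, ev_k, ev_c0, rv, rv] at a2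
  rw [rv] at a1
  norm_num at a1 a2 ⊢
  linarith

end Pool.Agent.Work.MP_6bf1e5_an.Bl
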