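import Pool.Agent.Work.MP_6bf1e5_an.Bl.Cert
import Pool.Agent.Work.MP_6bf1e5_an.Dy.Inv

/-! Soundness of the tube certificate on the window of shells. -/

namespace Pool.Agent.Work.MP_6bf1e5_an.Bl

open SP Set

theorem abs_mul_le' {a b A B : ℝ} (ha : |a| ≤ A) (hb : |b| ≤ B) : |a*b| ≤ A*B := by
  rw [abs_mul]
  exact mul_le_mul ha hb (abs_nonneg _) ((abs_nonneg _).trans ha)

namespace Cert

variable (C : Cert)

/-- The linear part. -/
noncomputable def v (z : ℕ → ℝ) (s : ℝ) (i : ℕ) : ℝ :=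
  ∑ l ∈ Finset.range C.d, (C.M i l).ev s * z l

/-- The reference trajectory. -/
noncomputable def w (z : ℕ → ℝ) (s : ℝ) (i : ℕ) : ℝ := (C.Y i).ev s + C.v z s i

noncomputable def w' (z : ℕ → ℝ) (s : ℝ) (i : ℕ) : ℝ :=
  (C.Y i).der.ev s + ∑ l ∈ Finset.range C.d, (C.M i l).der.ev s * z l

theorem hasDerivAt_w (z : ℕ → ℝ) (s : ℝ) (i : ℕ) :
    HasDerivAt (fun s => C.w z s i) (C.w' z s i) s :=
  ((C.Y i).hasDerivAt s).add
    (HasDerivAt.fun_sum fun l _ => ((C.M i l).hasDerivAt s).mul_const (z l))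

@[simp] theorem ev_two (s : ℝ) : two.ev s = 2 := by simp [two, ev, evL]

variable {C} {z : ℕ → ℝ} {s : ℝ}

theorem sum_bd (f : ℕ → SP) (hz : ∀ l < C.d, |z l| ≤ rv (C.r l)) (hs : 0 ≤ s) :
    |∑ l ∈ Finset.range C.d, (f l).ev s * z l|
      ≤ (sum (fun l => mul (k (C.r l)) (f l).abs) C.d).ev s := by
  rw [ev_sum]
  refine (Finset.abs_sum_le_sum_abs _ _).trans (Finset.sum_le_sum fun l hl => ?_)
  rw [ev_mul, ev_k, mul_comm]
  exact abs_mul_le' (hz l (Finset.mem_range.1 hl)) (abs_ev _ hs)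

theorem v_bd (hz : ∀ l < C.d, |z l| ≤ rv (C.r l)) (hs : 0 ≤ s) (i : ℕ) :
    |C.v z s i| ≤ (C.V i).ev s := sum_bd _ hz hs

theorem w_bd (hz : ∀ l < C.d, |z l| ≤ rv (C.r l)) (hs : 0 ≤ s) (i : ℕ) :
    |C.w z s i| ≤ (C.W i).ev s := by
  rw [W, ev_add]
  exact (abs_add_le _ _).trans (add_le_add (abs_ev _ hs) (v_bd hz hs i))

theorem row (hz : ∀ l < C.d, |z l| ≤ rv (C.r l)) (hs : 0 ≤ s) {j : ℕ} {ρ μ u0 u2 : ℝ}
    (h0 : 0 ≤ rv C.rho) (hρ : |ρ - rv C.rho| ≤ rv C.drho) (hμ : |μ| ≤ rv C.dmu)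
    (hu0 : |u0| ≤ (C.B j).ev s)
    (hu2 : |C.w z s (j+1) * u2| ≤ (C.W (j+1)).ev s * (C.B (j+2)).ev s)
    (hT : 0 < (C.rowT j).ev s) :
    |ρ * (C.w z s j + u0)^2 - C.w z s (j+1) * (C.w z s (j+2) + u2) - μ * C.w z s (j+1)
      - C.w' z s (j+1)| < (C.B (j+1)).der.ev s := by
  have e1 : ∑ l ∈ Finset.range C.d, (C.D j l).ev s * z l
      = 2 * (rv C.rho * (C.Y j).ev s) * C.v z s j - (C.Y (j+2)).ev s * C.v z s (j+1)
        - (C.Y (j+1)).ev s * C.v z s (j+2)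
        - ∑ l ∈ Finset.range C.d, (C.M (j+1) l).der.ev s * z l := by
    simp only [v, Finset.mul_sum, ← Finset.sum_sub_distrib, D, ev_sub, ev_mul, ev_k, ev_two]
    exact Finset.sum_congr rfl fun l _ => by ring
  have b1 := abs_le.1 (abs_ev (C.dY j) hs)
  have b2 := abs_le.1 (sum_bd (C.D j) hz hs)
  have b3 := abs_le.1 (abs_mul_le' (abs_of_nonneg h0).le
    (abs_mul_le' (v_bd hz hs j) (v_bd hz hs j)))
  have b4 := abs_le.1 (abs_mul_le' (v_bd hz hs (j+1)) (v_bd hz hs (j+2)))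
  have b5 := abs_le.1 (abs_mul_le' hρ (abs_mul_le' (w_bd hz hs j) (w_bd hz hs j)))
  have b6 := abs_le.1 (abs_mul_le' hμ (w_bd hz hs (j+1)))
  have hρ' : |ρ| ≤ rv C.rho + rv C.drho := by
    have := abs_le.1 hρ
    rw [abs_le]
    constructor <;> linarith [this.1, this.2]
  have b7 := abs_le.1 (abs_mul_le' hρ' (abs_mul_le' (w_bd hz hs j) hu0))
  have b8 := abs_le.1 (abs_mul_le' hρ' (abs_mul_le' hu0 hu0))
  have b9 := abs_le.1 hu2
  rw [e1] at b2
  simp only [rowT, src, ev_sub, ev_add, ev_mul, ev_k, ev_two] at hT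
  have e2 : (C.dY j).ev s = rv C.rho * ((C.Y j).ev s * (C.Y j).ev s)
      - (C.Y (j+1)).ev s * (C.Y (j+2)).ev s - (C.Y (j+1)).der.ev s := by
    simp only [dY, ev_sub, ev_mul, ev_k]
  rw [e2] at b1
  simp only [w, w'] at *
  rw [abs_lt]
  constructor <;> linarith [b1.1, b1.2, b2.1, b2.2, b3.1, b3.2, b4.1, b4.2, b5.1, b5.2, b6.1, b6.2,
    b7.1, b7.2, b8.1, b8.2, b9.1, b9.2]

theorem w_zero (i : ℕ) (hi : i < C.d) : C.w z 0 (i+1) = (C.Y (i+1)).ev 0 + z i := by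
  have : ∀ l, (C.M (i+1) l).ev 0 * z l = if i = l then z l else 0 := by
    intro l
    by_cases h : i = l
    · simp [M, ev, evL, h]; norm_num
    · simp [M, ev, evL, h]
  simp only [w, v, this, Finset.sum_ite_eq, Finset.mem_range, hi, if_true]

theorem tube {y : ℝ → ℕ → ℝ} {ρ : ℝ} {μ : ℕ → ℝ} (hz : ∀ l < C.d, |z l| ≤ rv (C.r l))
    (h0 : 0 ≤ rv C.rho) (hρ : |ρ - rv C.rho| ≤ rv C.drho)
    (hμ : ∀ j ≤ C.d, 0 ≤ μ (j+1) ∧ μ (j+1) ≤ rv C.dmu)
    (hrow : ∀ j < C.d + 1, 0 < loL (C.rowT j).c)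
    (hwl : ∀ s, C.w z s (C.d+1) = 0) (hBl : ∀ s, (C.B (C.d+2)).ev s = 0)
    (hy : ∀ s ∈ Icc (0:ℝ) (1025/1024), ∀ j ≤ C.d, HasDerivWithinAt (fun s => y s (j+1))
      (ρ * y s j ^ 2 - y s (j+1) * y s (j+2) - μ (j+1) * y s (j+1)) (Ici 0) s)
    (hpos : ∀ s ∈ Icc (0:ℝ) (1025/1024), ∀ j, 0 ≤ y s j)
    (hb : ∀ s ∈ Icc (0:ℝ) (1025/1024), |y s 0 - C.w z s 0| ≤ (C.B 0).ev s)
    (hi : ∀ j ≤ C.d, |y 0 (j+1) - C.w z 0 (j+1)| ≤ (C.B (j+1)).ev 0) :
    ∀ s ∈ Icc (0:ℝ) (1025/1024), ∀ j ≤ C.d, |y s (j+1) - C.w z s (j+1)| ≤ (C.B (j+1)).ev s := by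
  intro s hs j hj
  have := Dy.inv_two (Finset.range (C.d+1)) (Finset.range (C.d+1))
    (fun j s => (C.B (j+1)).ev s - (y s (j+1) - C.w z s (j+1)))
    (fun j s => (C.B (j+1)).der.ev s -
      (ρ * y s j ^ 2 - y s (j+1) * y s (j+2) - μ (j+1) * y s (j+1) - C.w' z s (j+1)))
    (fun j s => (C.B (j+1)).ev s + (y s (j+1) - C.w z s (j+1)))
    (fun j s => (C.B (j+1)).der.ev s +
      (ρ * y s j ^ 2 - y s (j+1) * y s (j+2) - μ (j+1) * y s (j+1) - C.w' z s (j+1)))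
    (a := 0) (b := 1025/1024)
    (fun j hj s hs => ((C.B (j+1)).hasDerivAt s).hasDerivWithinAt.sub
      ((hy s hs j (by simpa [Nat.lt_succ_iff] using hj)).sub
        (C.hasDerivAt_w z s (j+1)).hasDerivWithinAt))
    (fun j hj s hs => ((C.B (j+1)).hasDerivAt s).hasDerivWithinAt.add
      ((hy s hs j (by simpa [Nat.lt_succ_iff] using hj)).sub
        (C.hasDerivAt_w z s (j+1)).hasDerivWithinAt))
    (fun j hj => by linarith [(abs_le.1 (hi j (by simpa [Nat.lt_succ_iff] using hj))).2])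
    (fun j hj => by linarith [(abs_le.1 (hi j (by simpa [Nat.lt_succ_iff] using hj))).1])
    (fun s hs h1 h2 => by
      have hu : ∀ j ≤ C.d + 1, |y s j - C.w z s j| ≤ (C.B j).ev s := by
        intro j hj
        cases j with
        | zero => exact hb s hs
        | succ j =>
          have a1 := h1 j (Finset.mem_range.2 (by omega))
          have a2 := h2 j (Finset.mem_range.2 (by omega))
          rw [abs_le]
          constructor <;> linarith
      have key : ∀ j < C.d + 1, |ρ * y s j ^ 2 - C.w z s (j+1) * y s (j+2)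
          - μ (j+1) * C.w z s (j+1) - C.w' z s (j+1)| < (C.B (j+1)).der.ev s := by
        intro j hj
        have hm := hμ j (by omega)
        have := row hz hs.1 (j := j) (u0 := y s j - C.w z s j)
          (u2 := y s (j+2) - C.w z s (j+2)) h0 hρ (μ := μ (j+1))
          (by rw [abs_of_nonneg hm.1]; exact hm.2) (hu j (by omega))
          (by
            rcases Nat.lt_or_ge j C.d with h | h
            · exact abs_mul_le' (w_bd hz hs.1 _) (hu (j+2) (by omega))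
            · obtain rfl : j = C.d := by omega
              rw [hwl, hBl]
              simp) (pos_of (hrow j hj) hs)
        simpa only [add_sub_cancel] using this
      constructor
      · intro j hj h
        have hj' := Finset.mem_range.1 hj
        have a1 := abs_lt.1 (key j hj')
        have a2 : 0 ≤ y s (j+1) - C.w z s (j+1) := by linarith [h2 j hj]
        have a3 := mul_nonneg a2 (add_nonneg (hpos s hs (j+2)) (hμ j (by omega)).1)
        linarith [a1.2]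
      · intro j hj h
        have hj' := Finset.mem_range.1 hj
        have a1 := abs_lt.1 (key j hj')
        have a2 : 0 ≤ C.w z s (j+1) - y s (j+1) := by linarith [h1 j hj]
        have a3 := mul_nonneg a2 (add_nonneg (hpos s hs (j+2)) (hμ j (by omega)).1)
        linarith [a1.1]) s hs
  have a1 := this.1 j (Finset.mem_range.2 (by omega))
  have a2 := this.2 j (Finset.mem_range.2 (by omega))
  rw [abs_le]
  constructor <;> linarith

/-- The box condition at the end of a stage. -/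
theorem fin (hz : ∀ l < C.d, |z l| ≤ rv (C.r l)) {j : ℕ} {σ γ y : ℝ}
    (hσ : σ = ∑ l ∈ Finset.range C.d, rv (C.al l) * z l)
    (hγ : γ = ∑ l ∈ Finset.range C.d, rv (C.be l) * z l) (hs : 0 ≤ 1 + σ)
    (hT : 0 ≤ (C.endT j).ev (1+σ)) (hy : |y - C.w z (1+σ) (j+2)| ≤ (C.B (j+2)).ev (1+σ)) :
    |y - (rv C.G + γ) * (C.Y (j+1)).ev 0| ≤ rv C.G0 * rv (C.r j) := by
  have hσ' : |σ| ≤ C.ds.ev (1+σ) := by
    have := sum_bd (fun l => k (C.al l)) hz hs
    simp only [ev_k] at this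
    rwa [← hσ] at this
  have e0 : C.v z (1+σ) (j+2) = ∑ l ∈ Finset.range C.d, (C.M (j+2) l).c1.ev (1+σ) * z l
      + σ * ∑ l ∈ Finset.range C.d, (C.M (j+2) l).quo.ev (1+σ) * z l := by
    rw [v, Finset.mul_sum, ← Finset.sum_add_distrib]
    refine Finset.sum_congr rfl fun l _ => ?_
    rw [ev_quo (C.M (j+2) l)]
    ring
  have e1 : ∑ l ∈ Finset.range C.d, (C.J j l).ev (1+σ) * z l
      = ∑ l ∈ Finset.range C.d, (C.M (j+2) l).c1.ev (1+σ) * z l
        + (C.Y (j+2)).quo.c1.ev (1+σ) * σ - (C.Y (j+1)).ev 0 * γ := by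
    conv_rhs => enter [1, 2, 2]; rw [hσ]
    rw [hγ]
    simp only [Finset.mul_sum, ← Finset.sum_sub_distrib, ← Finset.sum_add_distrib, J, ev_sub,
      ev_add, ev_mul, ev_k, ev_c0]
    exact Finset.sum_congr rfl fun l _ => by ring
  have e2 := ev_quo (C.Y (j+2)) (1+σ)
  have e3 := ev_quo (C.Y (j+2)).quo (1+σ)
  have b1 := abs_le.1 (abs_ev (sub (C.Y (j+2)).c1 (mul (k C.G) (C.Y (j+1)).c0)) hs)
  have b2 := abs_le.1 (sum_bd (C.J j) hz hs)
  have b3 := abs_le.1 (abs_mul_le' (abs_mul_le' hσ' hσ') (abs_ev (C.Y (j+2)).quo.quo hs))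
  have b4 := abs_le.1 (abs_mul_le' hσ' (sum_bd (fun l => (C.M (j+2) l).quo) hz hs))
  have b5 := abs_le.1 hy
  rw [e1] at b2
  rw [ev_sub, ev_mul, ev_k, ev_c0] at b1
  rw [w, e0, e2, e3] at b5
  rw [endT, ev_sub, ev_add, ev_add, ev_add, ev_add, ev_mul, ev_mul, ev_mul, ev_mul, ev_k,
    ev_k] at hT
  rw [abs_le]
  constructor <;> linarith [b1.1, b1.2, b2.1, b2.2, b3.1, b3.2, b4.1, b4.2, b5.1, b5.2]

end Cert

end Pool.Agent.Work.MP_6bf1e5_an.Bl
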